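import Mathlib
import Pool.Agent.R355.NegCount
import Pool.Agent.TH167.SH.Conv
import Pool.Agent.TH167.SH.Defs

set_option autoImplicit false

/-!
# The number of the negative curves on a blow-up of the plane

Let `P 1, …, P s` be arbitrary distinct points of the affine plane and let `X` be the blow-up of the
projective plane at these points.

* A curve with negative self-intersection is determined by its class.
* For every real `T ≥ 1` the number of the irreducible curves `C` on `X`, not exceptional, with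
  `C ^ 2 < 0` and `deg C ≤ T √(- C ^ 2)` is at most `2 s (2 T + 1) ^ (s - 1)`.
* In particular at most `2 s (2 D + 1) ^ (s - 1)` irreducible curves with negative
  self-intersection have degree at most `D ≥ 1`.

The bounds do not depend on the position of the points.  Proof: two negative curves with classes
`d H - ∑ w i E i`, `e H - ∑ u i E i` satisfy `∑ w i u i ≤ d e`, so that the unit vectors of `w` and `u`
have distance at least `1 / T`; one compares volumes.
-/

namespace Pool.Agent.Results.MP_d3e5c7_ag.CountingNegativeCurves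

open MvPolynomial Pool.Agent.TH167 Pool.Agent.TH167.SHDefs

/-- The classes `(d, w)`, `d H - ∑ w i E i`, of the irreducible curves `C` with `C ^ 2 < 0` and
`d ^ 2 ≤ T ^ 2 (- C ^ 2)`. -/
def negClasses {s : ℕ} (P : Fin s → Fin 2 → ℂ) (T : ℝ) : Set (ℕ × (Fin s → ℕ)) :=
  {c | ∃ C : MvPolynomial (Fin 3) ℂ, Curve P C c.1 c.2 ∧ inter c.1 c.2 c.1 c.2 < 0 ∧
    (c.1 : ℝ) ^ 2 ≤ T ^ 2 * -(inter c.1 c.2 c.1 c.2 : ℝ)}

/-- The classes of the irreducible curves with negative self-intersection and degree at most `D`. -/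
def negClassesDeg {s : ℕ} (P : Fin s → Fin 2 → ℂ) (D : ℕ) : Set (ℕ × (Fin s → ℕ)) :=
  {c | ∃ C : MvPolynomial (Fin 3) ℂ, Curve P C c.1 c.2 ∧ inter c.1 c.2 c.1 c.2 < 0 ∧ c.1 ≤ D}

theorem result (s : ℕ) (P : Fin (s + 1) → Fin 2 → ℂ) (hP : Function.Injective P) :
    (∀ (d : ℕ) (w : Fin (s + 1) → ℕ) (C C' : MvPolynomial (Fin 3) ℂ), Curve P C d w →
      Curve P C' d w → inter d w d w < 0 → Associated C C') ∧
    (∀ T : ℝ, 1 ≤ T → (negClasses P T).Finite ∧
      ((negClasses P T).ncard : ℝ) ≤ 2 * (s + 1) * (2 * T + 1) ^ s) ∧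
    (∀ D : ℕ, 1 ≤ D → (negClassesDeg P D).Finite ∧
      (negClassesDeg P D).ncard ≤ 2 * (s + 1) * (2 * D + 1) ^ s) := by
  have key : ∀ T : ℝ, 1 ≤ T → (negClasses P T).Finite ∧
      ((negClasses P T).ncard : ℝ) ≤ 2 * (s + 1) * (2 * T + 1) ^ s := by
    intro T hT
    have h := Pool.Agent.R355.NegCount.count hP hT
    rw [add_comm (2 * T) 1]
    exact h
  refine ⟨fun d w C C' hC hC' hneg => ?_, key, fun D hD => ?_⟩
  · obtain ⟨A1, A2, A3⟩ := SH.curve_iff.1 hC
    obtain ⟨B1, B2, B3⟩ := SH.curve_iff.1 hC'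
    by_contra hcon
    have hnd : ¬ C ∣ C' := fun h1 => hcon (A1.associated_of_dvd B1 h1)
    have hbez := SH.bez hP A1 A2 (fun j => (A3 j).1) B1.ne_zero B2 (fun j => (B3 j).1) hnd
    rw [SH.inter_eq] at hneg
    unfold SH.ip at hneg
    have h1 : ((∑ j, w j * w j : ℕ) : ℤ) ≤ ((d * d : ℕ) : ℤ) := by exact_mod_cast hbez
    push_cast at h1
    linarith
  · have hsub : negClassesDeg P D ⊆ negClasses P D := by
      rintro c ⟨C, hC, hneg, hle⟩
      refine ⟨C, hC, hneg, ?_⟩
      have h1 : (inter c.1 c.2 c.1 c.2 : ℝ) ≤ -1 := by exact_mod_cast Int.le_sub_one_of_lt hneg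
      have h2 : (c.1 : ℝ) ≤ D := by exact_mod_cast hle
      have h3 : (c.1 : ℝ) ^ 2 ≤ (D : ℝ) ^ 2 := by
        have : (0 : ℝ) ≤ c.1 := Nat.cast_nonneg _
        nlinarith
      nlinarith [sq_nonneg (D : ℝ)]
    obtain ⟨h1, h2⟩ := key D (by exact_mod_cast hD)
    refine ⟨h1.subset hsub, ?_⟩
    have h3 : ((negClassesDeg P D).ncard : ℝ) ≤ (negClasses P D).ncard := by
      exact_mod_cast Set.ncard_le_ncard hsub h1
    have h4 : ((negClassesDeg P D).ncard : ℝ) ≤ ((2 * (s + 1) * (2 * D + 1) ^ s : ℕ) : ℝ) := by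
      push_cast
      linarith
    exact_mod_cast h4

end Pool.Agent.Results.MP_d3e5c7_ag.CountingNegativeCurves
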