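import Mathlib
import Pool.Agent.G476.Pk.Curves

set_option autoImplicit false

/-!
# The negative curves on a blow-up of the plane: a packing of cones

Let `X` be the blow-up of the projective plane at `n = s + 1` arbitrary distinct points. For an
irreducible curve `C` of class `d H - ∑ m i E i` with `C ^ 2 < 0` let `θ` be the angle with
`sin θ = √(- C ^ 2 / ∑ m i ^ 2)`, `cos θ = d / √(∑ m i ^ 2)`. As `C C' ≥ 0` for two such curves, the
circular cones in `ℝ ^ n` with the axes `m`, `m'` and the angles `θ / 2`, `θ' / 2` do not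
overlap. We use this to show

* `∑ (sin θ) ^ (n - 1) ≤ 5 ^ n`, the sum over all curves `C` with `C ^ 2 < 0`;
* the number of the curves with `C ^ 2 < 0` and `deg C ≤ T √(- C ^ 2)` is `o (T ^ (n - 1))`;
* for almost every real class `L` with `L ^ 2 = 0`, `L H > 0` and every `K` all but finitely many
  of the curves with `C ^ 2 < 0` satisfy `deg C (L C) > K (L H) (- C ^ 2)`.
-/

namespace Pool.Agent.Results.MP_d3e5c7_ag.NegativeCurvePacking

open MvPolynomial Pool.Agent.TH167 Pool.Agent.TH167.SHDefs MeasureTheory Filter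
open scoped Topology

/-- The classes `(d, m)`, `d H - ∑ m i E i`, of the irreducible curves `C` with `C ^ 2 < 0`. -/
def negative {s : ℕ} (P : Fin s → Fin 2 → ℂ) : Set (ℕ × (Fin s → ℕ)) :=
  {c | ∃ C : MvPolynomial (Fin 3) ℂ, Curve P C c.1 c.2 ∧ inter c.1 c.2 c.1 c.2 < 0}

/-- The number `√(- C ^ 2 / ∑ m i ^ 2)` for the class `(d, m)` of `C`. -/
noncomputable def sine {s : ℕ} (c : ℕ × (Fin s → ℕ)) : ℝ :=
  √(-(inter c.1 c.2 c.1 c.2 : ℝ) / ∑ i, (c.2 i : ℝ) ^ 2)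

/-- The classes `(d, m)` of the irreducible curves `C` with `C ^ 2 < 0` and
`d ^ 2 ≤ T ^ 2 (- C ^ 2)`. -/
def negClasses {s : ℕ} (P : Fin s → Fin 2 → ℂ) (T : ℝ) : Set (ℕ × (Fin s → ℕ)) :=
  {c | ∃ C : MvPolynomial (Fin 3) ℂ, Curve P C c.1 c.2 ∧ inter c.1 c.2 c.1 c.2 < 0 ∧
    (c.1 : ℝ) ^ 2 ≤ T ^ 2 * -(inter c.1 c.2 c.1 c.2 : ℝ)}

theorem result (s : ℕ) (P : Fin (s + 1) → Fin 2 → ℂ) (hP : Function.Injective P) :
    ((Summable fun c : negative P => sine c.1 ^ s) ∧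
      ∑' c : negative P, sine c.1 ^ s ≤ (5 : ℝ) ^ (s + 1)) ∧
    ((∀ T : ℝ, (negClasses P T).Finite) ∧
      (1 ≤ s → Tendsto (fun T : ℝ => ((negClasses P T).ncard : ℝ) / T ^ s) atTop (𝓝 0))) ∧
    (∀ᵐ v : EuclideanSpace ℝ (Fin (s + 1)), ∀ K : ℝ,
      {c : ℕ × (Fin (s + 1) → ℕ) | c ∈ negative P ∧
        (c.1 : ℝ) * (‖v‖ * c.1 - ∑ i, v i * c.2 i) ≤
          K * ‖v‖ * -(inter c.1 c.2 c.1 c.2 : ℝ)}.Finite) := by
  refine ⟨⟨G476.Pk.summable_sg hP, G476.Pk.tsum_sg hP⟩, ⟨fun T => ?_, fun hs =>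
    G476.Pk.tendsto_count hs hP⟩, ?_⟩
  · refine (Pool.Agent.R355.NegCount.count hP (le_max_left 1 |T|)).1.subset ?_
    rintro c ⟨C, hC, hneg, hle⟩
    refine ⟨C, hC, hneg, hle.trans ?_⟩
    have h1 : (inter c.1 c.2 c.1 c.2 : ℝ) < 0 := by exact_mod_cast hneg
    have h2 : T ^ 2 ≤ (max 1 |T|) ^ 2 := by
      rw [← sq_abs]
      exact pow_le_pow_left₀ (abs_nonneg _) (le_max_right _ _) 2
    exact mul_le_mul_of_nonneg_right h2 (by linarith)
  · filter_upwards [G476.Pk.ae_curves hP] with v h1 K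
    refine (h1 K).subset fun c hc => ⟨hc.1, ?_⟩
    rw [mul_comm (c.1 : ℝ) ‖v‖]
    exact hc.2

end Pool.Agent.Results.MP_d3e5c7_ag.NegativeCurvePacking
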