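import Mathlib
import Pool.Agent.R355.NegOrb
import Pool.Agent.TH167.SH.Conv
import Pool.Agent.TH167.SH.Defs

set_option autoImplicit false

/-!
# Negative curves, roots and `(-1)`-curves

Let `P 1, …, P s`, `s ≥ 4`, be very general points of the complex projective plane and let `C` be an
irreducible curve on the blow-up with `C ^ 2 = -k < 0`, which is not a `(-1)`-curve.

* All classes in the orbit of the class of `C` under the group generated by the reflections in the
  classes `H - E i - E j - E l` are classes of irreducible curves on the same surface; two different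
  ones have a nonnegative intersection number.
* For every class `e H - ∑ u i E i` in this orbit each of the numbers `u i` and `e - u i - u j` is
  zero or at least `k`, each of the numbers `u i - u j` and `e - u i - u j - u l` is zero or of
  absolute value at least `√k`, and `e ≥ 3 k`.
* Every `(-1)`-curve is disjoint from `C` or meets it in at least `k` points, counted with
  multiplicities.

The proofs: a quadratic transformation carries `C` to an irreducible curve at other generic points,
and an automorphism of the complex numbers carries these points back to the given ones.  A curve and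
its reflection are different irreducible curves, whose intersection number is
`-k + (C α) ^ 2`, `α` the root.  The inequality of Xu and Ein-Lazarsfeld is applied to all curves of
the orbit.
-/

namespace Pool.Agent.Results.MP_d3e5c7_ag.WeylOrbitSeparation

open MvPolynomial Pool.Agent.TH167 Pool.Agent.TH167.SHDefs

/-- The reflection of the class `a = (d; w)`, `d H - ∑ w l E l`, in the class
`H - E (i 0) - E (i 1) - E (i 2)`: with `δ = d - w (i 0) - w (i 1) - w (i 2)`, the numbers
`d`, `w (i 0)`, `w (i 1)`, `w (i 2)` are increased by `δ`. -/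
def reflect {s : ℕ} (i : Fin 3 → Fin s) (a : ℤ × (Fin s → ℤ)) : ℤ × (Fin s → ℤ) :=
  (a.1 + (a.1 - a.2 (i 0) - a.2 (i 1) - a.2 (i 2)),
    fun l => a.2 l + if l = i 0 ∨ l = i 1 ∨ l = i 2 then a.1 - a.2 (i 0) - a.2 (i 1) - a.2 (i 2)
      else 0)

/-- Finitely many reflections carry the class `a` to `b`. -/
def Carries {s : ℕ} (a b : ℤ × (Fin s → ℤ)) : Prop :=
  Relation.ReflTransGen
    (fun a b : ℤ × (Fin s → ℤ) => ∃ i : Fin 3 → Fin s, Function.Injective i ∧ b = reflect i a) a b

/-- The intersection number of two classes. -/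
def dot {s : ℕ} (a b : ℤ × (Fin s → ℤ)) : ℤ := a.1 * b.1 - ∑ l, a.2 l * b.2 l

open Pool.Agent.R355.NegOrb in
theorem result (s : ℕ) (hs : 4 ≤ s) :
    ∃ Z : ℕ → MvPolynomial (Fin s × Fin 2) ℂ, (∀ n, Z n ≠ 0) ∧
      ∀ P : Fin s → Fin 2 → ℂ,
        (∀ n, MvPolynomial.eval (fun ij : Fin s × Fin 2 => P ij.1 ij.2) (Z n) ≠ 0) →
        ∀ (d : ℕ) (w : Fin s → ℕ) (C : MvPolynomial (Fin 3) ℂ) (k : ℤ),
          Curve P C d w → ¬ MinusOne P C d w → inter d w d w = -k → 0 < k →
          (∀ b : ℤ × (Fin s → ℤ), Carries ((d : ℤ), fun l => (w l : ℤ)) b →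
            ∃ (e : ℕ) (u : Fin s → ℕ) (G : MvPolynomial (Fin 3) ℂ),
              b = ((e : ℤ), fun l => (u l : ℤ)) ∧ Curve P G e u ∧ 3 * k ≤ e ∧
              (∀ i, u i = 0 ∨ k ≤ u i) ∧
              (∀ i j, i ≠ j → (e : ℤ) - u i - u j = 0 ∨ k ≤ (e : ℤ) - u i - u j) ∧
              (∀ i j, u i = u j ∨ k ≤ ((u i : ℤ) - u j) ^ 2) ∧
              (∀ i j l, i ≠ j → i ≠ l → j ≠ l → (e : ℤ) - u i - u j - u l = 0 ∨
                k ≤ ((e : ℤ) - u i - u j - u l) ^ 2)) ∧
          (∀ b b' : ℤ × (Fin s → ℤ), Carries ((d : ℤ), fun l => (w l : ℤ)) b →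
            Carries ((d : ℤ), fun l => (w l : ℤ)) b' → b ≠ b' → 0 ≤ dot b b') ∧
          (∀ (E : MvPolynomial (Fin 3) ℂ) (e : ℕ) (u : Fin s → ℕ), MinusOne P E e u →
            inter d w e u = 0 ∨ k ≤ inter d w e u) := by
  classical
  obtain ⟨r, rfl⟩ : ∃ r, s = r + 4 := ⟨s - 4, by omega⟩
  obtain ⟨Z, hZ, h⟩ := SH.exists_fam (Fin (r + 4) × Fin 2)
  refine ⟨Z, hZ, fun P hP0 d w C k hC hne hk hk0 => ?_⟩
  have hP := (h _).1 hP0
  obtain ⟨h1, h2, h3⟩ := SH.curve_iff.1 hC
  have hne' : ¬ (SH.ip d w d w = -1 ∧ SH.kk d w = 1) := fun h0 =>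
    hne ⟨hC, by rw [SH.inter_eq, h0.1], by rw [SH.interK_eq, h0.2]⟩
  have hI : Irr P d w := ⟨⟨C, h1, h2, h3⟩, hne'⟩
  rw [SH.inter_eq] at hk
  -- the orbit
  have horb : ∀ b : ℤ × (Fin (r + 4) → ℤ), Carries ((d : ℤ), fun l => (w l : ℤ)) b →
      ∃ (e : ℕ) (u : Fin (r + 4) → ℕ), b = Pool.Agent.TH442.NF.cls e u ∧ Irr P e u ∧
        SH.ip e u e u = -k := by
    intro b hb
    obtain ⟨e, u, a1, a2, a3⟩ := hI.orbit hP (b := b) hb
    exact ⟨e, u, a1, a2, by rw [a3, hk]⟩
  -- consequences for one curve
  have hone : ∀ (e : ℕ) (u : Fin (r + 4) → ℕ), Irr P e u → SH.ip e u e u = -k →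
      (∀ i, u i = 0 ∨ k ≤ u i) := by
    intro e u hu hku i
    obtain ⟨G, g1, g2, g3⟩ := hu.ex
    by_cases h0 : u i = 0
    · exact Or.inl h0
    · right
      have hx := xu hP g1 g2 g3 (k := i) (by omega)
      have hx' : ((∑ j, u j ^ 2 : ℕ) : ℤ) ≤ ((e ^ 2 + u i : ℕ) : ℤ) := by exact_mod_cast hx
      have e1 : SH.ip e u e u = (e : ℤ) ^ 2 - ((∑ j, u j ^ 2 : ℕ) : ℤ) := by
        unfold SH.ip
        push_cast
        rw [pow_two]
        congr 1
        exact Finset.sum_congr rfl fun i _ => by ring
      rw [e1] at hku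
      push_cast at hx' hku
      linarith
  have hpair : ∀ (e : ℕ) (u : Fin (r + 4) → ℕ), Irr P e u → SH.ip e u e u = -k →
      ∀ i j, i ≠ j → (e : ℤ) - u i - u j = 0 ∨ k ≤ (e : ℤ) - u i - u j := by
    intro e u hu hku i j hij
    obtain ⟨l, hl⟩ : ∃ l : Fin (r + 4), l ∉ ({i, j} : Finset (Fin (r + 4))) := by
      refine Finset.exists_mem_notMem_of_card_lt_card (s := {i, j}) (t := Finset.univ) ?_ |>.imp
        fun l hl => hl.2
      rw [Finset.card_univ, Fintype.card_fin]
      exact lt_of_le_of_lt Finset.card_le_two (by omega)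
    rw [Finset.mem_insert, Finset.mem_singleton, not_or] at hl
    have hi : Function.Injective ![i, j, l] :=
      SH.inj_cons hij (fun h => hl.1 h.symm) (fun h => hl.2 h.symm)
    have p := hu.ps hP hi
    have hst := hu.step hP hi
    have hip : SH.ip (SH.cd ![i, j, l] e u) (Pool.Agent.W609.CR.wcr e ![i, j, l] u)
        (SH.cd ![i, j, l] e u) (Pool.Agent.W609.CR.wcr e ![i, j, l] u) = -k := by
      rw [SH.ip_cr hi p p, hku]
    have hc := SH.wcr_cast hi p l
    have hic : SH.ic ![i, j, l] l = 1 := (SH.ic_base ![i, j, l]).2.2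
    rw [hic] at hc
    unfold SH.dl at hc
    have e0 : u (![i, j, l] 0) = u i := rfl
    have e1 : u (![i, j, l] 1) = u j := rfl
    have e2 : u (![i, j, l] 2) = u l := rfl
    rw [e0, e1, e2] at hc
    rcases hone _ _ hst hip l with h0 | h0
    · left
      rw [h0] at hc
      push_cast at hc
      linarith
    · right
      rw [hc] at h0
      linarith
  have hroot : ∀ (e : ℕ) (u : Fin (r + 4) → ℕ), Irr P e u → SH.ip e u e u = -k →
      ∀ i : Fin 3 → Fin (r + 4), Function.Injective i →
        del i (Pool.Agent.TH442.NF.cls e u) = 0 ∨ k ≤ del i (Pool.Agent.TH442.NF.cls e u) ^ 2 := by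
    intro e u hu hku i hi
    by_cases h0 : del i (Pool.Agent.TH442.NF.cls e u) = 0
    · exact Or.inl h0
    · right
      have p := hu.ps hP hi
      obtain ⟨G, g1, g2, g3⟩ := hu.ex
      obtain ⟨G', g1', g2', g3'⟩ := (hu.step hP hi).ex
      have hcl := Pool.Agent.TH442.NF.refl_cls hi p
      have hneq : (e, u) ≠ (SH.cd i e u, Pool.Agent.W609.CR.wcr e i u) := by
        intro h4
        have h5 : Pool.Agent.TH442.NF.cls (SH.cd i e u) (Pool.Agent.W609.CR.wcr e i u) =
            Pool.Agent.TH442.NF.cls e u := by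
          rw [← (Prod.mk.inj h4).1, ← (Prod.mk.inj h4).2]
        rw [← hcl] at h5
        have h6 := congrArg Prod.fst h5
        rw [refl_fst] at h6
        exact h0 (by linarith)
      have h7 := Pool.Agent.R355.NegCount.ip_nonneg (SH.inj_of_alg hP) g1' g2' g3' g1 g2 g3 hneq
      rw [← bil_cls, ← hcl, bil_self_refl hi, bil_cls, hku] at h7
      linarith
  have hthree : ∀ (e : ℕ) (u : Fin (r + 4) → ℕ), Irr P e u → SH.ip e u e u = -k → 3 * k ≤ e := by
    intro e
    induction e using Nat.strong_induction_on with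
    | _ e ih =>
      intro u hu hku
      obtain ⟨G, g1, g2, g3⟩ := hu.ex
      have hue : ∀ j, u j ≤ e := fun j => SH.van_le g1.ne_zero g2 (g3 j).1
      by_cases hred : SH.Reduced e u
      · -- at least three positive multiplicities
        have hsum : 3 * e < ∑ j, u j := by
          by_contra hcon
          push Not at hcon
          have h5 := SH.red_ip hred hue hcon
          rw [hku] at h5
          linarith
        have hcard : 2 < (Finset.univ.filter fun j => u j ≠ 0).card := by
          by_contra hcon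
          push Not at hcon
          have h6 : ∑ j, u j = ∑ j ∈ Finset.univ.filter (fun j => u j ≠ 0), u j := by
            rw [Finset.sum_filter_ne_zero]
          have h7 : ∑ j ∈ Finset.univ.filter (fun j => u j ≠ 0), u j ≤
              (Finset.univ.filter fun j => u j ≠ 0).card * e := by
            rw [← smul_eq_mul]
            exact Finset.sum_le_card_nsmul _ _ _ fun j _ => hue j
          have h8 : (Finset.univ.filter fun j => u j ≠ 0).card * e ≤ 2 * e :=
            Nat.mul_le_mul_right _ hcon
          omega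
        obtain ⟨a, ha, b, hb, c, hc, hab, hac, hbc⟩ := Finset.two_lt_card.1 hcard
        rw [Finset.mem_filter] at ha hb hc
        have h9 := hred a b c hab hac hbc
        have ka := (hone e u hu hku a).resolve_left ha.2
        have kb := (hone e u hu hku b).resolve_left hb.2
        have kc := (hone e u hu hku c).resolve_left hc.2
        have h10 : ((u a + u b + u c : ℕ) : ℤ) ≤ e := by exact_mod_cast h9
        push_cast at h10
        linarith
      · unfold SH.Reduced at hred
        push Not at hred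
        obtain ⟨a, b, c, hab, hac, hbc, hlt⟩ := hred
        have hi : Function.Injective ![a, b, c] := SH.inj_cons hab hac hbc
        have p := hu.ps hP hi
        have hc1 := SH.cd_cast p
        unfold SH.dl at hc1
        have e0 : u (![a, b, c] 0) = u a := rfl
        have e1 : u (![a, b, c] 1) = u b := rfl
        have e2 : u (![a, b, c] 2) = u c := rfl
        rw [e0, e1, e2] at hc1
        have hlt' : SH.cd ![a, b, c] e u < e := by omega
        have h5 := ih _ hlt' _ (hu.step hP hi) (by rw [SH.ip_cr hi p p, hku])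
        have h6 : ((SH.cd ![a, b, c] e u : ℕ) : ℤ) < e := by exact_mod_cast hlt'
        linarith
  refine ⟨fun b hb => ?_, fun b b' hb hb' hbb => ?_, fun E e u hE => ?_⟩
  · obtain ⟨e, u, rfl, hu, hku⟩ := horb b hb
    obtain ⟨G, g1, g2, g3⟩ := hu.ex
    refine ⟨e, u, G, rfl, SH.curve_iff.2 ⟨g1, g2, g3⟩, hthree e u hu hku, hone e u hu hku,
      hpair e u hu hku, fun i j => ?_, fun i j l hij hil hjl => ?_⟩
    · by_cases hij : u i = u j
      · exact Or.inl hij
      · right
        obtain ⟨G', g1', g2', g3'⟩ := exists_conj hP hP g1 g2 g3 (Equiv.swap i j)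
        have hne2 : i ≠ j := fun h => hij (by rw [h])
        have hneq : (e, u) ≠ (e, fun l => u (Equiv.swap i j l)) := by
          intro h4
          have h5 := congrFun (Prod.mk.inj h4).2 i
          simp only [Equiv.swap_apply_left] at h5
          exact hij h5
        have h7 := Pool.Agent.R355.NegCount.ip_nonneg (SH.inj_of_alg hP) g1' g2' g3' g1 g2 g3 hneq
        unfold SH.ip at h7 hku
        have h8 : ∑ l, ((u l : ℤ) - u (Equiv.swap i j l)) ^ 2 = 2 * ((u i : ℤ) - u j) ^ 2 := by
          rw [Fintype.sum_eq_add i j hne2]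
          · rw [Equiv.swap_apply_left, Equiv.swap_apply_right]
            ring
          · rintro l ⟨h2, h3⟩
            rw [Equiv.swap_apply_of_ne_of_ne h2 h3]
            ring
        have h9 : ∑ l, ((u l : ℤ) - u (Equiv.swap i j l)) ^ 2 =
            ∑ l, (u l : ℤ) * u l + ∑ l, (u (Equiv.swap i j l) : ℤ) * u (Equiv.swap i j l) -
              2 * ∑ l, (u l : ℤ) * u (Equiv.swap i j l) := by
          rw [Finset.mul_sum, ← Finset.sum_add_distrib, ← Finset.sum_sub_distrib]
          exact Finset.sum_congr rfl fun l _ => by ring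
        have h10 : ∑ l, (u (Equiv.swap i j l) : ℤ) * u (Equiv.swap i j l) = ∑ l, (u l : ℤ) * u l :=
          Equiv.sum_comp (Equiv.swap i j) fun l => (u l : ℤ) * u l
        rw [h10, h8] at h9
        linarith
    · have h5 := hroot e u hu hku ![i, j, l] (SH.inj_cons hij hil hjl)
      have e3 : del ![i, j, l] (Pool.Agent.TH442.NF.cls e u) = (e : ℤ) - u i - u j - u l := rfl
      rw [e3] at h5
      exact h5
  · obtain ⟨e, u, rfl, hu, hku⟩ := horb b hb
    obtain ⟨e', u', rfl, hu', hku'⟩ := horb b' hb'
    obtain ⟨G, g1, g2, g3⟩ := hu.ex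
    obtain ⟨G', g1', g2', g3'⟩ := hu'.ex
    have hneq : (e, u) ≠ (e', u') := by
      intro h4
      exact hbb (by rw [(Prod.mk.inj h4).1, (Prod.mk.inj h4).2])
    exact Pool.Agent.R355.NegCount.ip_nonneg (SH.inj_of_alg hP) g1' g2' g3' g1 g2 g3 hneq
  · have hEx := SH.minusOne_iff.1 hE
    obtain ⟨i, j, hij, hch⟩ := exc_chain e P hP E u hEx
    obtain ⟨c, hc1, hc2⟩ := hch.par (Pool.Agent.TH442.NF.cls d w)
    obtain ⟨e', u', rfl, hu', hku'⟩ := horb c hc1
    rw [bil_cls, bil_cls] at hc2
    have h5 : SH.ip 1 (fun l => if l = i ∨ l = j then 1 else 0) e' u' = (e' : ℤ) - u' i - u' j := by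
      have h6 := Pool.Agent.TH442.NF.ip_line hij e' u'
      have h7 : SH.ip 1 (fun l => if l = i ∨ l = j then 1 else 0) e' u' =
          SH.ip e' u' 1 (fun l => if l = i ∨ l = j then 1 else 0) := by
        unfold SH.ip
        rw [mul_comm]
        congr 1
        exact Finset.sum_congr rfl fun l _ => mul_comm _ _
      rw [h7, h6]
    have h8 : inter d w e u = (e' : ℤ) - u' i - u' j := by
      rw [SH.inter_eq, ← h5, hc2]
      unfold SH.ip
      rw [mul_comm]
      congr 1
      exact Finset.sum_congr rfl fun l _ => mul_comm _ _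
    rw [h8]
    exact hpair e' u' hu' hku' i j hij

end Pool.Agent.Results.MP_d3e5c7_ag.WeylOrbitSeparation
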